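import Mathlib

set_option autoImplicit false
open Subgroup commutatorElement

namespace Pool.Agent.H.MP_f345de_al

section
variable {G : Type} [Group G] [LinearOrder G] [MulLeftMono G] [MulRightMono G]

lemma p1 {z w : G} (h : z * w ≤ w * z) (n : ℕ) : z ^ n * w ≤ w * z ^ n := by
  induction n with
  | zero => simp
  | succ n ih =>
    calc z ^ (n + 1) * w = z ^ n * (z * w) := by rw [pow_succ, mul_assoc]
      _ ≤ z ^ n * (w * z) := by gcongr
      _ = z ^ n * w * z := by rw [mul_assoc]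
      _ ≤ w * z ^ n * z := by gcongr
      _ = _ := by rw [pow_succ, mul_assoc]

lemma p2 (z w : G) (n : ℕ) : (z * w) ^ n ≤ w ^ n * z ^ n ∨ (z * w) ^ n ≤ z ^ n * w ^ n := by
  refine (le_total (z * w) (w * z)).imp (fun h => ?_) fun h => ?_
  · induction n with
    | zero => simp
    | succ n ih =>
      calc (z * w) ^ (n + 1) = (z * w) ^ n * (z * w) := pow_succ _ _
        _ ≤ w ^ n * z ^ n * (z * w) := by gcongr
        _ = w ^ n * (z ^ (n + 1) * w) := by simp [pow_succ, mul_assoc]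
        _ ≤ w ^ n * (w * z ^ (n + 1)) := mul_le_mul_right (p1 h _) _
        _ = _ := by simp [pow_succ, mul_assoc]
  · induction n with
    | zero => simp
    | succ n ih =>
      calc (z * w) ^ (n + 1) = (z * w) ^ n * (z * w) := pow_succ _ _
        _ ≤ z ^ n * w ^ n * (z * w) := by gcongr
        _ = z ^ n * (w ^ n * z) * w := by simp [mul_assoc]
        _ ≤ z ^ n * (z * w ^ n) * w := mul_le_mul_left (mul_le_mul_right (p1 h _) _) _
        _ = _ := by simp [pow_succ, mul_assoc]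

lemma noPerf {S : Set G} (hS : S.Finite) (h : closure S ≤ ⁅closure S, closure S⁆) : closure S = ⊥ := by
  obtain ⟨g, g1, g2⟩ := ((hS.union hS.inv).insert 1).exists_maximal (Set.insert_nonempty _ _)
  replace g2 : ∀ s ∈ insert 1 (S ∪ S⁻¹), s ≤ g := fun s hs => (le_total s g).elim id (g2 hs)
  have g0 : 1 ≤ g := g2 1 (.inl rfl)
  rcases g0.eq_or_lt with rfl | g0
  · exact closure_eq_bot_iff.2 fun s hs => (g2 s (.inr (.inl hs))).antisymm
      (inv_le_one'.1 (g2 s⁻¹ (.inr (.inr (by simpa)))))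
  have gm : StrictMono fun n : ℤ => g ^ n := strictMono_int_of_lt_succ fun n => by
    simpa [zpow_add] using g0
  have b1 : ∀ z ∈ closure S, ∃ m : ℤ, z ≤ g ^ m ∧ z⁻¹ ≤ g ^ m := fun z hz => by
    induction hz using closure_induction with
    | mem s hs => exact ⟨1, by simpa using g2 s (.inr (.inl hs)), by simpa using g2 s⁻¹ (.inr (.inr (by simpa)))⟩
    | one => exact ⟨0, by simp⟩
    | mul a b _ _ ha hb =>
      obtain ⟨m, m1, m2⟩ := ha
      obtain ⟨k, k1, k2⟩ := hb
      exact ⟨m + k, by rw [zpow_add]; gcongr, by rw [add_comm, zpow_add, mul_inv_rev]; gcongr⟩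
    | inv a _ ha => simpa [and_comm] using ha
  have b2 : ∀ u ∈ closure S, ∀ (a : G) (m : ℤ), a ≤ g ^ m → u * a * u⁻¹ ≤ g ^ (m + 1) := fun u hu a m ha => by
    obtain ⟨j, j1, j2⟩ := b1 u hu
    obtain ⟨k, k1, k2⟩ := Int.exists_greatest_of_bdd (P := fun k => g ^ k ≤ u)
      ⟨j, fun k hk => gm.le_iff_le.1 (hk.trans j1)⟩ ⟨-j, by rwa [zpow_neg, inv_le']⟩
    have : u ≤ g ^ (k + 1) := le_of_not_ge fun q => by have := k2 _ q; omega
    calc u * a * u⁻¹ ≤ g ^ (k + 1) * g ^ m * (g ^ k)⁻¹ := mul_le_mul' (mul_le_mul' this ha) (inv_le_inv_iff.2 k1)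
      _ = _ := by group
  have b3 : ∀ a ∈ closure S, ∀ b ∈ closure S, ∃ m : ℤ, ∀ n : ℕ, ⁅a, b⁆ ^ n ≤ g ^ m := fun a ha b hb => by
    obtain ⟨m, m1, m2⟩ := b1 a ha
    refine ⟨m + (m + 1), fun n => (p2 (a * b * a⁻¹) b⁻¹ n).elim (fun q => q.trans ?_) fun q => q.trans ?_⟩
    · calc b⁻¹ ^ n * (a * b * a⁻¹) ^ n = b⁻¹ ^ n * a * (b⁻¹ ^ n)⁻¹ * a⁻¹ := by rw [conj_pow]; group
        _ ≤ g ^ (m + 1) * g ^ m := mul_le_mul' (b2 _ (pow_mem (inv_mem hb) n) _ _ m1) m2
        _ = _ := by group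
    · calc (a * b * a⁻¹) ^ n * b⁻¹ ^ n = a * (b ^ n * a⁻¹ * (b ^ n)⁻¹) := by rw [conj_pow]; group
        _ ≤ g ^ m * g ^ (m + 1) := mul_le_mul' m1 (b2 _ (pow_mem hb n) _ _ m2)
        _ = _ := by group
  have b4 : ∀ z w : G, ∀ m k : ℤ, (∀ n : ℕ, z ^ n ≤ g ^ m) → (∀ n : ℕ, w ^ n ≤ g ^ k) → ∀ n : ℕ,
      (z * w) ^ n ≤ g ^ (m + k) := fun z w m k h1 h2 n => (p2 z w n).elim
    (fun q => q.trans (by rw [add_comm, zpow_add]; exact mul_le_mul' (h2 n) (h1 n)))
    fun q => q.trans (by rw [zpow_add]; exact mul_le_mul' (h1 n) (h2 n))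
  let B : Subgroup G :=
    { carrier := {z | (∃ m : ℤ, ∀ n : ℕ, z ^ n ≤ g ^ m) ∧ ∃ m : ℤ, ∀ n : ℕ, z⁻¹ ^ n ≤ g ^ m}
      one_mem' := ⟨⟨0, by simp⟩, 0, by simp⟩
      inv_mem' := fun h => ⟨h.2, by simpa using h.1⟩
      mul_mem' := fun ⟨⟨m, h1⟩, m', h2⟩ ⟨⟨k, h3⟩, k', h4⟩ =>
        ⟨⟨_, b4 _ _ _ _ h1 h3⟩, _, by rw [mul_inv_rev]; exact b4 _ _ _ _ h4 h2⟩ }
  have b5 : closure S ≤ B := h.trans (commutator_le.2 fun a ha b hb =>
    ⟨b3 a ha b hb, by rw [commutatorElement_inv]; exact b3 b hb a ha⟩)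
  obtain ⟨m, hm⟩ := (b5 (show g ∈ closure S by
    rcases g1 with rfl | q | q
    exacts [one_mem _, subset_closure q, by simpa using inv_mem (subset_closure (k := S) q)])).1
  have := gm.le_iff_le.1 ((zpow_natCast g (m.toNat + 1)).le.trans (hm _))
  omega
end

variable {G : Type} [Group G]

lemma cen {Q : Type} [Group Q] (φ : G →* Q) {x y : G} (hg : closure {x, y} = ⊤) {z : Q} (h1 : Commute (φ x) z)
    (h2 : Commute (φ y) z) (a : G) : Commute (φ a) z := by
  induction (hg ▸ mem_top a : a ∈ closure {x, y}) using closure_induction with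
  | mem s hs => rcases hs with rfl | rfl <;> assumption
  | one => simp
  | mul a b _ _ ha hb => rw [map_mul]; exact ha.mul_left hb
  | inv a _ ha => rw [map_inv]; exact ha.inv_left

lemma ab {Q : Type} [Group Q] (φ : G →* Q) {x y : G} (hg : closure {x, y} = ⊤) (h : Commute (φ x) (φ y)) :
    commutator G ≤ φ.ker := commutator_le.2 fun a _ b _ => by
  rw [MonoidHom.mem_ker, map_commutatorElement, commutatorElement_eq_one_iff_commute]
  exact cen φ hg (cen φ hg (.refl _) h.symm b).symm (cen φ hg h (.refl _) b).symm a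

lemma key (R : Subgroup G) [hn : R.Normal] (hR : ∀ a ∈ R, ∀ b ∈ R, Commute a b) {c d h k : G}
    (hg : closure {c * h, d * k} = ⊤) (hc : c ∈ commutator G) (hd : d ∈ commutator G) (hh : h ∈ R) (hk : k ∈ R) :
    (∃ S : Set G, S.Finite ∧ closure S = commutator G) ∧ commutator G ≤ ⁅commutator G, commutator G⁆ := by
  have cm : ∀ a b : G, ⁅a, b⁆ ∈ commutator G := fun a b => commutator_mem_commutator (mem_top a) (mem_top b)
  have cr : ∀ a : G, ∀ r ∈ R, ⁅a, r⁆ ∈ R := fun a r hr => mul_mem (hn.1 r hr a) (inv_mem hr)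
  constructor
  · set S : Set G := {c, d} ∪ Set.image2 (fun r s => ⁅r, s⁆) {h, h⁻¹, k, k⁻¹} {c, d}
    have c1 : c ∈ closure S := subset_closure (.inl (.inl rfl))
    have d1 : d ∈ closure S := subset_closure (.inl (.inr rfl))
    have n1 : ∀ r ∈ ({h, h⁻¹, k, k⁻¹} : Set G), ∀ z ∈ closure S, r * z * r⁻¹ ∈ closure S := fun r hr z hz => by
      have rR : ∀ r ∈ ({h, h⁻¹, k, k⁻¹} : Set G), r ∈ R := by simp [hh, hk]
      induction hz using closure_induction with
      | mem s hs =>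
        rcases hs with hs | ⟨r', r1, s, s1, rfl⟩
        · simpa [commutatorElement_def] using mul_mem (subset_closure (.inr ⟨r, hr, s, hs, rfl⟩) : ⁅r, s⁆ ∈ closure S)
            (subset_closure (.inl hs) : s ∈ closure S)
        · rw [(hR r (rR r hr) _ (by simpa using inv_mem (cr s r' (rR r' r1)))).eq,
            mul_inv_cancel_right]
          exact subset_closure (.inr ⟨r', r1, s, s1, rfl⟩)
      | one => simp
      | mul a b _ _ ha hb => simpa [mul_assoc] using mul_mem ha hb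
      | inv a _ ha => simpa [mul_assoc] using inv_mem ha
    have n2 : ∀ a : G, ∀ z ∈ closure S, a * z * a⁻¹ ∈ closure S ∧ a⁻¹ * z * a ∈ closure S := fun a => by
      have : ∀ s ∈ closure S, ∀ r ∈ ({h, h⁻¹, k, k⁻¹} : Set G), r⁻¹ ∈ ({h, h⁻¹, k, k⁻¹} : Set G) → ∀ z ∈ closure S,
          s * r * z * (s * r)⁻¹ ∈ closure S ∧ (s * r)⁻¹ * z * (s * r) ∈ closure S := fun s hs r r1 r2 z hz =>
        ⟨by simpa [mul_assoc] using mul_mem (mul_mem hs (n1 r r1 z hz)) (inv_mem hs),
          by simpa [mul_assoc] using n1 _ r2 _ (mul_mem (mul_mem (inv_mem hs) hz) hs)⟩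
      induction (hg ▸ mem_top a : a ∈ closure {c * h, d * k}) using closure_induction with
      | mem s hs =>
        rcases hs with rfl | rfl
        exacts [this c c1 h (by simp) (by simp), this d d1 k (by simp) (by simp)]
      | one => simp
      | mul a b _ _ ha hb => exact fun z hz => ⟨by simpa [mul_assoc] using (ha _ (hb z hz).1).1,
          by simpa [mul_assoc] using (hb _ (ha z hz).2).2⟩
      | inv a _ ha => exact fun z hz => by simpa [and_comm] using ha z hz
    have : (closure S).Normal := ⟨fun z hz a => (n2 a z hz).1⟩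
    refine ⟨S, (Set.toFinite _).union (.image2 _ (Set.toFinite _) (Set.toFinite _)), ((closure_le _).2 ?_).antisymm ?_⟩
    · rintro _ ((rfl | rfl) | ⟨r, -, s, -, rfl⟩)
      exacts [hc, hd, cm r s]
    · have := ab (QuotientGroup.mk' (closure S)) hg (by
        simp only [map_mul, QuotientGroup.mk'_apply, (QuotientGroup.eq_one_iff _).2 c1,
          (QuotientGroup.eq_one_iff _).2 d1, one_mul]
        exact (hR h hh k hk).map (QuotientGroup.mk' _))
      rwa [QuotientGroup.ker_mk'] at this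
  · set N := ⁅commutator G, commutator G⁆
    set φ := QuotientGroup.mk' N
    have q1 : ∀ a ∈ commutator G, ∀ b ∈ commutator G, Commute (φ a) (φ b) := fun a ha b hb => by
      rw [← commutatorElement_eq_one_iff_commute, ← map_commutatorElement]
      exact (QuotientGroup.eq_one_iff _).2 (commutator_mem_commutator ha hb)
    set ψ := (QuotientGroup.mk' (center (G ⧸ N))).comp φ
    have q2 : ∀ a : G, ∀ r ∈ R, Commute (ψ a) (ψ r) := fun a r hr => by
      rw [← commutatorElement_eq_one_iff_commute, ← map_commutatorElement]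
      refine (QuotientGroup.eq_one_iff _).2 (mem_center_iff.2 fun u => ?_)
      obtain ⟨u, rfl⟩ := QuotientGroup.mk'_surjective N u
      refine cen φ hg ?_ ?_ u <;> rw [map_mul]
      exacts [(q1 c hc _ (cm a r)).mul_left ((hR h hh _ (cr a r hr)).map φ),
        (q1 d hd _ (cm a r)).mul_left ((hR k hk _ (cr a r hr)).map φ)]
    have q3 : ∀ a ∈ commutator G, ∀ u, Commute (φ a) u := fun a ha u =>
      (mem_center_iff.1 ((QuotientGroup.eq_one_iff _).1 (ab ψ hg (by
        rw [map_mul ψ d]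
        refine Commute.mul_right ?_ (q2 _ k hk)
        rw [map_mul]
        exact ((q1 c hc d hd).map (QuotientGroup.mk' _)).mul_left (q2 d h hh).symm) ha)) u).symm
    have := ab φ hg (by
      rw [map_mul, map_mul]
      exact (q3 c hc _).mul_left ((q3 d hd _).symm.mul_right ((hR h hh k hk).map φ)))
    rwa [QuotientGroup.ker_mk'] at this

end Pool.Agent.H.MP_f345de_al
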